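import Pool.Agent.MP_c42954_lc.Scan.Defs

set_option autoImplicit false

/-!
# Splay trees, upper bounds for executions: sequences of rotations
-/

namespace Pool.Agent.SplB

open BinaryTree Pool.Agent.MP_c42954_lc.Scan

theorem rot_symm {t u : BinaryTree ℕ} (h : Rot t u) : Rot u t := by
  induction h with
  | atLeftChild a b A B C => exact Rot.atRightChild b a A B C
  | atRightChild a b A B C => exact Rot.atLeftChild b a A B C
  | inLeft c r _ ih => exact Rot.inLeft c r ih
  | inRight c l _ ih => exact Rot.inRight c l ih

theorem rot_inorder {t u : BinaryTree ℕ} (h : Rot t u) : inorder t = inorder u := by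
  induction h with
  | atLeftChild a b A B C => simp [inorder]
  | atRightChild a b A B C => simp [inorder]
  | inLeft c r _ ih => simp [inorder, ih]
  | inRight c l _ ih => simp [inorder, ih]

theorem rs_trans {e f : ℕ} {t u v : BinaryTree ℕ} (h : RotSeq e t u) (h' : RotSeq f u v) :
    RotSeq (e + f) t v := by
  induction h with
  | refl t => simpa using h'
  | @step e' _ _ _ h1 h2 ih =>
    have := RotSeq.step h1 (ih h')
    rwa [show e' + 1 + f = e' + f + 1 from by omega]

theorem rs_symm {e : ℕ} {t u : BinaryTree ℕ} (h : RotSeq e t u) : RotSeq e u t := by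
  induction h with
  | refl t => exact RotSeq.refl t
  | step h1 _ ih => exact rs_trans ih (RotSeq.step (rot_symm h1) (RotSeq.refl _))

theorem rs_inorder {e : ℕ} {t u : BinaryTree ℕ} (h : RotSeq e t u) : inorder t = inorder u := by
  induction h with
  | refl t => rfl
  | step h1 _ ih => exact (rot_inorder h1).trans ih

theorem rs_left {e : ℕ} (c : ℕ) {t u : BinaryTree ℕ} (r : BinaryTree ℕ) (h : RotSeq e t u) :
    RotSeq e (.node c t r) (.node c u r) := by
  induction h with
  | refl t => exact RotSeq.refl _
  | step h1 _ ih => exact RotSeq.step (Rot.inLeft c r h1) ih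

theorem rs_right {e : ℕ} (c : ℕ) (l : BinaryTree ℕ) {t u : BinaryTree ℕ} (h : RotSeq e t u) :
    RotSeq e (.node c l t) (.node c l u) := by
  induction h with
  | refl t => exact RotSeq.refl _
  | step h1 _ ih => exact RotSeq.step (Rot.inRight c l h1) ih

/-- At most `n` rotations turn `t` into `u`. -/
def Near (n : ℕ) (t u : BinaryTree ℕ) : Prop := ∃ e ≤ n, RotSeq e t u

theorem Near.refl (n : ℕ) (t : BinaryTree ℕ) : Near n t t := ⟨0, Nat.zero_le _, RotSeq.refl t⟩

theorem Near.of_eq (n : ℕ) {t u : BinaryTree ℕ} (h : t = u) : Near n t u := h ▸ Near.refl n t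

theorem Near.symm {n : ℕ} {t u : BinaryTree ℕ} (h : Near n t u) : Near n u t := by
  obtain ⟨e, he, h⟩ := h
  exact ⟨e, he, rs_symm h⟩

theorem Near.mono {n m : ℕ} {t u : BinaryTree ℕ} (h : Near n t u) (hnm : n ≤ m) : Near m t u := by
  obtain ⟨e, he, h⟩ := h
  exact ⟨e, he.trans hnm, h⟩

theorem Near.trans {n m : ℕ} {t u v : BinaryTree ℕ} (h : Near n t u) (h' : Near m u v) :
    Near (n + m) t v := by
  obtain ⟨e, he, h⟩ := h
  obtain ⟨f, hf, h'⟩ := h'
  exact ⟨e + f, by omega, rs_trans h h'⟩

theorem Near.left {n : ℕ} {t u : BinaryTree ℕ} (h : Near n t u) (c : ℕ) (r : BinaryTree ℕ) :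
    Near n (.node c t r) (.node c u r) := by
  obtain ⟨e, he, h⟩ := h
  exact ⟨e, he, rs_left c r h⟩

theorem Near.right {n : ℕ} {t u : BinaryTree ℕ} (h : Near n t u) (c : ℕ) (l : BinaryTree ℕ) :
    Near n (.node c l t) (.node c l u) := by
  obtain ⟨e, he, h⟩ := h
  exact ⟨e, he, rs_right c l h⟩

theorem Near.inorder {n : ℕ} {t u : BinaryTree ℕ} (h : Near n t u) : inorder t = inorder u := by
  obtain ⟨e, _, h⟩ := h
  exact rs_inorder h

theorem Near.rot {t u : BinaryTree ℕ} (h : Rot t u) : Near 1 t u :=
  ⟨1, le_refl _, RotSeq.step h (RotSeq.refl _)⟩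

/-! ## Any two trees with the same symmetric order -/

/-- The number of nodes. -/
def sz : BinaryTree ℕ → ℕ
  | .nil => 0
  | .node _ l r => sz l + sz r + 1

theorem sz_inorder (t : BinaryTree ℕ) : (MP_c42954_lc.Scan.inorder t).length = sz t := by
  induction t with
  | nil => rfl
  | node a l r ihl ihr =>
    simp only [MP_c42954_lc.Scan.inorder, List.length_append, List.length_cons, sz, ihl, ihr]
    omega

/-- The right spine with the given keys. -/
def comb : List ℕ → BinaryTree ℕ
  | [] => .nil
  | a :: l => .node a .nil (comb l)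

/-- Rotating the left subtree `t` of the node `a` away. -/
theorem near_comb_aux (t : BinaryTree ℕ) : ∀ (l : List ℕ) (a : ℕ),
    Near (sz t) (.node a t (comb l)) (comb (MP_c42954_lc.Scan.inorder t ++ a :: l)) := by
  induction t with
  | nil =>
    intro l a
    exact Near.refl _ _
  | node b u v ihu ihv =>
    intro l a
    have h1 : Near 1 (.node a (.node b u v) (comb l)) (.node b u (.node a v (comb l))) :=
      Near.rot (Rot.atLeftChild a b u v (comb l))
    have h2 := (ihv l a).right b u
    have h3 := ihu (MP_c42954_lc.Scan.inorder v ++ a :: l) b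
    have h4 := (h1.trans h2).trans h3
    simp only [MP_c42954_lc.Scan.inorder, List.append_assoc, List.cons_append, sz] at h4 ⊢
    exact h4.mono (by omega)

theorem near_comb (t : BinaryTree ℕ) : Near (sz t) t (comb (MP_c42954_lc.Scan.inorder t)) := by
  induction t with
  | nil => exact Near.refl _ _
  | node a l r ihl ihr =>
    have h1 := ihr.right a l
    have h2 := near_comb_aux l (MP_c42954_lc.Scan.inorder r) a
    exact (h1.trans h2).mono (by simp only [sz]; omega)

/-- Two trees with the same symmetric order of length `n` differ by at most `2 n` rotations. -/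
theorem near_of_inorder {t u : BinaryTree ℕ}
    (h : MP_c42954_lc.Scan.inorder t = MP_c42954_lc.Scan.inorder u) :
    Near (2 * (MP_c42954_lc.Scan.inorder t).length) t u := by
  have h1 := near_comb t
  have h2 := (near_comb u).symm
  rw [← h] at h2
  have h3 := sz_inorder t
  have h4 := sz_inorder u
  rw [← h] at h4
  exact (h1.trans h2).mono (by omega)

theorem depth_le (x : ℕ) (t : BinaryTree ℕ) :
    depth x t ≤ (MP_c42954_lc.Scan.inorder t).length := by
  induction t with
  | nil => simp [depth]
  | node a l r ihl ihr =>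
    simp only [depth, MP_c42954_lc.Scan.inorder, List.length_append, List.length_cons]
    split_ifs <;> omega

end Pool.Agent.SplB
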