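import Pool.Agent.SplPat.SpRel
import Pool.Agent.SplB.Near

set_option autoImplicit false
set_option linter.deprecated false

/-!
# Splay trees: from ratios of `splayCost` and `Exec` to the frozen statement
-/

namespace Pool.Agent.SplB

open BinaryTree Pool.Agent.MP_c42954_lc.Scan

/-- The symmetric order in the sense of the frozen statement. -/
def FIn (t : Tree ℕ) (l : List ℕ) : Prop := ∀ Q : Tree ℕ → List ℕ → Prop,
  (∀ t0 : Tree ℕ, (∀ (a : ℕ) (L R : Tree ℕ), t0 ≠ Tree.node a L R) → Q t0 []) →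
  (∀ (a : ℕ) (L R : Tree ℕ) (kl kr : List ℕ), Q L kl → Q R kr →
      Q (Tree.node a L R) (kl ++ a :: kr)) →
  Q t l

def FDep (x : ℕ) (t : Tree ℕ) (d : ℕ) : Prop := ∀ Q : Tree ℕ → ℕ → Prop,
  (∀ L R : Tree ℕ, Q (Tree.node x L R) 0) →
  (∀ (a : ℕ) (L R : Tree ℕ) (k : ℕ), x < a → Q L k → Q (Tree.node a L R) (k + 1)) →
  (∀ (a : ℕ) (L R : Tree ℕ) (k : ℕ), a < x → Q R k → Q (Tree.node a L R) (k + 1)) →
  Q t d

def FR1 (t t' : Tree ℕ) : Prop := ∀ Q : Tree ℕ → Tree ℕ → Prop,
  (∀ (a b : ℕ) (A B C : Tree ℕ),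
      Q (Tree.node a (Tree.node b A B) C) (Tree.node b A (Tree.node a B C))) →
  (∀ (a b : ℕ) (A B C : Tree ℕ),
      Q (Tree.node b A (Tree.node a B C)) (Tree.node a (Tree.node b A B) C)) →
  (∀ (a : ℕ) (L L' Rt : Tree ℕ), Q L L' → Q (Tree.node a L Rt) (Tree.node a L' Rt)) →
  (∀ (a : ℕ) (L Rt Rt' : Tree ℕ), Q Rt Rt' → Q (Tree.node a L Rt) (Tree.node a L Rt')) →
  Q t t'

def FE (x : ℕ) (t t' : Tree ℕ) : Prop := ∀ Q : Tree ℕ → Tree ℕ → Prop,
  (∀ L Rt : Tree ℕ, Q (Tree.node x L Rt) (Tree.node x L Rt)) →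
  (∀ (a b c : ℕ) (LL LR Rt A B : Tree ℕ), Q LL (Tree.node c A B) →
      Q (Tree.node a (Tree.node b LL LR) Rt)
        (Tree.node c A (Tree.node b B (Tree.node a LR Rt)))) →
  (∀ (a b c : ℕ) (LL LR Rt A B : Tree ℕ), Q LR (Tree.node c A B) →
      Q (Tree.node a (Tree.node b LL LR) Rt)
        (Tree.node c (Tree.node b LL A) (Tree.node a B Rt))) →
  (∀ (a b c : ℕ) (Lt RL RR A B : Tree ℕ), Q RR (Tree.node c A B) →
      Q (Tree.node a Lt (Tree.node b RL RR))
        (Tree.node c (Tree.node b (Tree.node a Lt RL) A) B)) →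
  (∀ (a b c : ℕ) (Lt RL RR A B : Tree ℕ), Q RL (Tree.node c A B) →
      Q (Tree.node a Lt (Tree.node b RL RR))
        (Tree.node c (Tree.node a Lt A) (Tree.node b B RR))) →
  Q t t'

def FS (x : ℕ) (t t' : Tree ℕ) : Prop := FE x t t' ∨
  (∃ (a c : ℕ) (L Rt A B : Tree ℕ), t = Tree.node a L Rt ∧ FE x L (Tree.node c A B) ∧
      t' = Tree.node c A (Tree.node a B Rt)) ∨
  (∃ (a c : ℕ) (L Rt A B : Tree ℕ), t = Tree.node a L Rt ∧ FE x Rt (Tree.node c A B) ∧
      t' = Tree.node c (Tree.node a L A) B)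

theorem fin_inorder (t : BinaryTree ℕ) : FIn t (inorder t) := by
  intro Q h0 h1
  induction t with
  | nil => exact h0 _ (by intro a L R h; cases h)
  | node a l r ihl ihr => exact h1 a l r _ _ ihl ihr

theorem fr1_rot {t u : BinaryTree ℕ} (h : Rot t u) : FR1 t u := by
  intro Q h1 h2 h3 h4
  induction h with
  | atLeftChild a b A B C => exact h1 a b A B C
  | atRightChild a b A B C => exact h2 b a A B C
  | inLeft c r _ ih => exact h3 c _ _ r ih
  | inRight c l _ ih => exact h4 c l _ _ ih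

theorem fdep_depth {x : ℕ} {t : BinaryTree ℕ} (hb : IsBST t) (hx : x ∈ inorder t) :
    FDep x t (depth x t) := by
  intro Q h0 h1 h2
  induction t with
  | nil => simp [inorder] at hx
  | node a l r ihl ihr =>
    have hb' : (inorder l ++ a :: inorder r).Pairwise (· < ·) := hb
    rw [List.pairwise_append] at hb'
    obtain ⟨hl, hr, hlr⟩ := hb'
    rw [List.pairwise_cons] at hr
    simp only [inorder, List.mem_append, List.mem_cons] at hx
    simp only [depth]
    by_cases hxa : x = a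
    · subst hxa
      simpa using h0 l r
    · rcases hx with hx | hx | hx
      · have hlt : x < a := hlr x hx a (by simp)
        rw [if_neg hxa, if_pos hlt]
        exact h1 a l r _ hlt (ihl hl hx)
      · exact absurd hx hxa
      · have hgt : a < x := hr.1 x hx
        rw [if_neg hxa, if_neg (by omega)]
        exact h2 a l r _ hgt (ihr hr.2 hx)

theorem fdep_depth_iff {x d : ℕ} {t : BinaryTree ℕ} (h : FDep x t d) : d = depth x t := by
  have := h (fun t d => d = depth x t) (by intro L R; simp [depth])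
    (by
      intro a L R k hx hk
      have h1 : x ≠ a := by omega
      simp only [depth]
      rw [if_neg h1, if_pos hx, hk])
    (by
      intro a L R k hx hk
      have h1 : x ≠ a := by omega
      have h2 : ¬ x < a := by omega
      simp only [depth]
      rw [if_neg h1, if_neg h2, hk])
  exact this

theorem fe_ev {x : ℕ} {t A B : BinaryTree ℕ} (h : SplPat.Ev x t A B) : FE x t (.node x A B) := by
  intro Q h0 h1 h2 h3 h4
  induction h with
  | base A B => exact h0 A B
  | ll _ _ _ ih => exact h1 _ _ _ _ _ _ _ _ ih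
  | lr _ _ _ ih => exact h2 _ _ _ _ _ _ _ _ ih
  | rr _ _ _ ih => exact h3 _ _ _ _ _ _ _ _ ih
  | rl _ _ _ ih => exact h4 _ _ _ _ _ _ _ _ ih

theorem fs_splay {x : ℕ} {t : BinaryTree ℕ} (hb : IsBST t) (hx : x ∈ inorder t) :
    FS x t (splay x t) := by
  obtain ⟨A, B, h, he⟩ := SplPat.spl_exists hb hx
  rw [he]
  cases h with
  | ev h => exact Or.inl (fe_ev h)
  | zl _ h => exact Or.inr (Or.inl ⟨_, _, _, _, _, _, rfl, fe_ev h, rfl⟩)
  | zr _ h => exact Or.inr (Or.inr ⟨_, _, _, _, _, _, rfl, fe_ev h, rfl⟩)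

theorem rotSeq_fun {e : ℕ} {t u : BinaryTree ℕ} (h : RotSeq e t u) :
    ∃ f : ℕ → BinaryTree ℕ, f 0 = t ∧ f e = u ∧ ∀ j < e, FR1 (f j) (f (j + 1)) := by
  induction h with
  | refl t => exact ⟨fun _ => t, rfl, rfl, fun j hj => by omega⟩
  | @step e t u v h1 _ ih =>
    obtain ⟨f, hf0, hfe, hf⟩ := ih
    refine ⟨fun j => if j = 0 then t else f (j - 1), by simp, by simp [hfe], ?_⟩
    intro j hj
    rcases Nat.eq_zero_or_pos j with rfl | hj0
    · simpa [hf0] using fr1_rot h1
    · have h2 := hf (j - 1) (by omega)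
      have e1 : j - 1 + 1 = j := by omega
      rw [e1] at h2
      have e2 : j ≠ 0 := by omega
      simpa [e2] using h2

/-- An execution in the sense of the frozen statement. -/
theorem exec_fun {T : BinaryTree ℕ} {X : List ℕ} {c : ℕ} (h : Exec T X c) :
    ∃ (U : ℕ → BinaryTree ℕ) (e : ℕ → ℕ), U 0 = T ∧
      (∀ i < X.length, ∃ f : ℕ → BinaryTree ℕ, f 0 = U i ∧ f (e i) = U (i + 1) ∧
        ∀ j < e i, FR1 (f j) (f (j + 1))) ∧
      (∀ i ≤ X.length, inorder (U i) = inorder T) ∧
      ∑ i ∈ Finset.range X.length, (1 + e i + depth (X.getD i 0) (U i)) = c := by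
  induction h with
  | nil T => exact ⟨fun _ => T, fun _ => 0, rfl, fun i hi => by simp at hi, fun _ _ => rfl, by simp⟩
  | @cons T T' x X e c h1 _ ih =>
    obtain ⟨U, e', hU0, hU, hin, hs⟩ := ih
    refine ⟨fun i => if i = 0 then T else U (i - 1), fun i => if i = 0 then e else e' (i - 1),
      by simp, ?_, ?_, ?_⟩
    · intro i hi
      rcases Nat.eq_zero_or_pos i with rfl | hi0
      · obtain ⟨f, hf0, hfe, hf⟩ := rotSeq_fun h1
        exact ⟨f, by simpa using hf0, by simpa [hU0] using hfe, by simpa using hf⟩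
      · simp only [List.length_cons] at hi
        obtain ⟨f, hf0, hfe, hf⟩ := hU (i - 1) (by omega)
        have e1 : i - 1 + 1 = i := by omega
        have e2 : i ≠ 0 := by omega
        rw [e1] at hfe
        exact ⟨f, by simpa [e2] using hf0, by simpa [e2] using hfe, by simpa [e2] using hf⟩
    · intro i hi
      rcases Nat.eq_zero_or_pos i with rfl | hi0
      · simp
      · simp only [List.length_cons] at hi
        have e2 : i ≠ 0 := by omega
        simp only [e2, if_false]
        rw [hin (i - 1) (by omega)]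
        exact (rs_inorder h1).symm
    · rw [List.length_cons, Finset.sum_range_succ']
      simp only [Nat.add_eq_zero_iff, one_ne_zero, and_false, if_false, Nat.add_sub_cancel,
        List.getD_cons_succ, if_true, List.getD_cons_zero]
      rw [hs]
      omega

/-- The trees of splaying. -/
def spt (T : BinaryTree ℕ) (X : ℕ → ℕ) : ℕ → BinaryTree ℕ
  | 0 => T
  | i + 1 => splay (X i) (spt T X i)

theorem spt_cons (T : BinaryTree ℕ) (x : ℕ) (X : List ℕ) (i : ℕ) :
    spt T (fun i => (x :: X).getD i 0) (i + 1) = spt (splay x T) (fun i => X.getD i 0) i := by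
  induction i with
  | zero => simp [spt]
  | succ i ih =>
    rw [spt, ih]
    simp [spt]

theorem splayCost_eq : ∀ (X : List ℕ) (T : BinaryTree ℕ),
    splayCost X T = X.length +
      ∑ i ∈ Finset.range X.length, depth (X.getD i 0) (spt T (fun i => X.getD i 0) i)
  | [], T => by simp [splayCost]
  | x :: X, T => by
    rw [splayCost, splayCost_eq X (splay x T), List.length_cons, Finset.sum_range_succ']
    have h0 : spt T (fun i => (x :: X).getD i 0) 0 = T := rfl
    simp only [spt_cons, List.getD_cons_succ, List.getD_cons_zero, h0]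
    omega

theorem spt_bst {T : BinaryTree ℕ} (hb : IsBST T) (m : ℕ) (X : ℕ → ℕ)
    (hX : ∀ i < m, X i ∈ inorder T) : ∀ i ≤ m, IsBST (spt T X i) ∧ inorder (spt T X i) = inorder T
  | 0, _ => ⟨hb, rfl⟩
  | i + 1, hi => by
    obtain ⟨h1, h2⟩ := spt_bst hb m X hX i (by omega)
    have hm : X i ∈ inorder (spt T X i) := by rw [h2]; exact hX i (by omega)
    exact ⟨splay_bst h1 hm, (splay_inorder h1 hm).trans h2⟩

/-- **The bridge.** If for every `C` some splaying costs more than `C` times the cost of some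
execution, then the conclusion of the frozen statement fails. -/
theorem bridge (H : ∀ C : ℕ, ∃ (T : BinaryTree ℕ) (X : List ℕ) (c : ℕ), IsBST T ∧
      (∀ x ∈ X, x ∈ inorder T) ∧ Exec T X c ∧ C * c < splayCost X T) :
    ¬ ∃ C : ℕ, ∀ (T : Tree ℕ) (l : List ℕ), FIn T l → List.Pairwise (· < ·) l →
      ∀ (m : ℕ) (X : ℕ → ℕ), (∀ i < m, X i ∈ l) →
        (∃ Sp : ℕ → Tree ℕ, Sp 0 = T ∧ ∀ i < m, FS (X i) (Sp i) (Sp (i + 1))) ∧
        ∀ Sp : ℕ → Tree ℕ, Sp 0 = T → (∀ i < m, FS (X i) (Sp i) (Sp (i + 1))) →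
        ∀ (U : ℕ → Tree ℕ) (e : ℕ → ℕ), U 0 = T →
          (∀ i < m, ∃ f : ℕ → Tree ℕ, f 0 = U i ∧ f (e i) = U (i + 1) ∧
              ∀ j < e i, FR1 (f j) (f (j + 1))) →
          ∀ (dS dU : ℕ → ℕ), (∀ i < m, FDep (X i) (Sp i) (dS i)) →
            (∀ i < m, FDep (X i) (U i) (dU i)) →
            m + ∑ i ∈ Finset.range m, dS i
              ≤ C * ∑ i ∈ Finset.range m, (1 + e i + dU i) := by
  rintro ⟨C, hC⟩
  obtain ⟨T, X, c, hb, hX, hE, hlt⟩ := H C
  obtain ⟨U, e, hU0, hU, hin, hs⟩ := exec_fun hE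
  have hmem : ∀ i < X.length, X.getD i 0 ∈ inorder T := by
    intro i hi
    apply hX
    rw [List.getD_eq_getElem X 0 hi]
    exact List.getElem_mem hi
  have hsp := spt_bst hb X.length (fun i => X.getD i 0) hmem
  have h1 := (hC T (inorder T) (fin_inorder T) hb X.length (fun i => X.getD i 0) hmem).2
    (spt T (fun i => X.getD i 0)) rfl
    (fun i hi => fs_splay (hsp i (by omega)).1 (by rw [(hsp i (by omega)).2]; exact hmem i hi))
    U e hU0 hU (fun i => depth (X.getD i 0) (spt T (fun i => X.getD i 0) i))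
    (fun i => depth (X.getD i 0) (U i))
    (fun i hi => fdep_depth (hsp i (by omega)).1
      (by rw [(hsp i (by omega)).2]; exact hmem i hi))
    (fun i hi => fdep_depth (by unfold IsBST; rw [hin i (by omega)]; exact hb)
      (by rw [hin i (by omega)]; exact hmem i hi))
  rw [hs, ← splayCost_eq] at h1
  omega

end Pool.Agent.SplB
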