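import Pool.Agent.SplB.Rep

set_option autoImplicit false

/-!
# Splay trees, upper bounds for executions: the interleave bound on `2 ^ h` keys

Keys are `0, ..., 2 ^ h - 1`.  The block `(l, b)` consists of the keys `x` with `x / 2 ^ l = b`.
A state `st : ℕ → ℕ → Bool` gives for every block `(l, b)`, `l ≥ 1`, a direction: the half which
was requested last.  A request `x` changes the directions of the blocks of `x` to the halves
which contain `x`; `chg h st x` is the number of blocks whose direction changes.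
-/

namespace Pool.Agent.SplB

open BinaryTree Pool.Agent.MP_c42954_lc.Scan

/-- The state after the request `x`. -/
def upd (st : ℕ → ℕ → Bool) (x : ℕ) : ℕ → ℕ → Bool := fun l b =>
  if b = x / 2 ^ l then x.testBit (l - 1) else st l b

/-- The number of directions changed by the request `x` at the levels `1, ..., h`. -/
def chg (h : ℕ) (st : ℕ → ℕ → Bool) (x : ℕ) : ℕ :=
  ∑ l ∈ Finset.range h, if st (l + 1) (x / 2 ^ (l + 1)) = x.testBit l then 0 else 1

/-- The total number of changes of directions. -/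
def tot (h : ℕ) : (ℕ → ℕ → Bool) → List ℕ → ℕ
  | _, [] => 0
  | st, x :: X => chg h st x + tot h (upd st x) X

/-- The trie of the block `(h, b)` with the directions `st`. -/
def mk (st : ℕ → ℕ → Bool) : ℕ → ℕ → Tr
  | 0, _ => .lf .nil
  | h + 1, b => .nd ((2 * b + 1) * 2 ^ h) (st (h + 1) b) (mk st h (2 * b)) (mk st h (2 * b + 1))

theorem ht_mk (st : ℕ → ℕ → Bool) : ∀ (h b : ℕ), ht (mk st h b) = h
  | 0, _ => rfl
  | h + 1, b => by simp [mk, ht, ht_mk st h]

theorem ino_mk (st : ℕ → ℕ → Bool) : ∀ (h b : ℕ),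
    b * 2 ^ h :: ino (mk st h b) = List.range' (b * 2 ^ h) (2 ^ h)
  | 0, b => by simp [mk, ino, inorder]
  | h + 1, b => by
    have h1 := ino_mk st h (2 * b)
    have h2 := ino_mk st h (2 * b + 1)
    have e1 : b * 2 ^ (h + 1) = 2 * b * 2 ^ h := by ring
    have e2 : (2 : ℕ) ^ (h + 1) = 2 ^ h + 2 ^ h := by ring
    have e3 : 2 * b * 2 ^ h + 2 ^ h = (2 * b + 1) * 2 ^ h := by ring
    simp only [mk, ino]
    rw [h2, e1, ← List.cons_append, h1, e2, ← List.range'_append_1, e3]

/-- The current key of the trie of the block `(h, b)`. -/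
theorem pk_upd (st : ℕ → ℕ → Bool) (x : ℕ) : ∀ (h b : ℕ), x / 2 ^ h = b →
    (pk (mk (upd st x) h b)).getD (b * 2 ^ h) = x
  | 0, b, hb => by
    simp only [pow_zero, Nat.div_one] at hb
    simp [mk, pk, hb]
  | h + 1, b, hb => by
    have e0 : x / 2 ^ (h + 1) = x / 2 ^ h / 2 := by rw [pow_succ, Nat.div_div_eq_div_mul]
    have hd : x.testBit h = decide (x / 2 ^ h % 2 = 1) := by
      rw [Nat.testBit_eq_decide_div_mod_eq]
    have e1 : b * 2 ^ (h + 1) = 2 * b * 2 ^ h := by ring
    simp only [mk, upd, hb, if_true, Nat.add_sub_cancel, pk]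
    by_cases hx : x / 2 ^ h % 2 = 1
    · have h2 : x / 2 ^ h = 2 * b + 1 := by omega
      have ih := pk_upd st x h (2 * b + 1) h2
      rw [hd, decide_eq_true hx]
      simp only [if_true]
      change ((pk (mk (upd st x) h (2 * b + 1))).or _).getD _ = x
      cases hp : pk (mk (upd st x) h (2 * b + 1)) with
      | none => rw [hp] at ih; simpa using ih
      | some c => rw [hp] at ih; simpa using ih
    · have h2 : x / 2 ^ h = 2 * b := by omega
      have ih := pk_upd st x h (2 * b) h2
      rw [hd, decide_eq_false hx, e1]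
      simpa using ih

theorem mk_congr (st st' : ℕ → ℕ → Bool) : ∀ (h b : ℕ),
    (∀ l, l < h → ∀ c, c / 2 ^ (h - (l + 1)) = b → st (l + 1) c = st' (l + 1) c) →
    mk st h b = mk st' h b
  | 0, _, _ => rfl
  | h + 1, b, H => by
    have h1 := mk_congr st st' h (2 * b) (fun l hl c hc => H l (by omega) c (by
      rw [show h + 1 - (l + 1) = h - (l + 1) + 1 from by omega, pow_succ,
        ← Nat.div_div_eq_div_mul, hc]; omega))
    have h2 := mk_congr st st' h (2 * b + 1) (fun l hl c hc => H l (by omega) c (by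
      rw [show h + 1 - (l + 1) = h - (l + 1) + 1 from by omega, pow_succ,
        ← Nat.div_div_eq_div_mul, hc]; omega))
    have h3 : st (h + 1) b = st' (h + 1) b := H h (by omega) b (by simp)
    simp only [mk, h1, h2, h3]

/-- The trie of a block which does not contain `x` does not change. -/
theorem mk_upd_ne (st : ℕ → ℕ → Bool) (x h b : ℕ) (hb : x / 2 ^ h ≠ b) :
    mk (upd st x) h b = mk st h b := by
  apply mk_congr
  intro l hl c hc
  unfold upd
  rw [if_neg]
  rintro rfl
  apply hb
  rw [Nat.div_div_eq_div_mul, ← pow_add, show l + 1 + (h - (l + 1)) = h from by omega] at hc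
  exact hc

/-- A request changes `chg h st x` directions of the trie, each on the current path. -/
theorem fl_upd (st : ℕ → ℕ → Bool) (x : ℕ) : ∀ (h b : ℕ), x / 2 ^ h = b →
    Fl (chg h st x) (mk st h b) (mk (upd st x) h b)
  | 0, b, _ => by simpa [chg, mk] using Fl.refl _
  | h + 1, b, hb => by
    have e0 : x / 2 ^ (h + 1) = x / 2 ^ h / 2 := by rw [pow_succ, Nat.div_div_eq_div_mul]
    have hd : x.testBit h = decide (x / 2 ^ h % 2 = 1) := by
      rw [Nat.testBit_eq_decide_div_mod_eq]
    have hdir := Fl.dir ((2 * b + 1) * 2 ^ h) (st (h + 1) b) (x.testBit h)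
      (mk st h (2 * b)) (mk st h (2 * b + 1))
    have hc : chg (h + 1) st x =
        (if st (h + 1) b = x.testBit h then 0 else 1) + chg h st x := by
      unfold chg
      rw [Finset.sum_range_succ, hb, add_comm]
    rw [hc]
    refine hdir.trans ?_
    have hu : upd st x (h + 1) b = x.testBit h := by simp [upd, hb]
    simp only [mk, hu]
    by_cases hx : x / 2 ^ h % 2 = 1
    · have h2 : x / 2 ^ h = 2 * b + 1 := by omega
      rw [hd, decide_eq_true hx, mk_upd_ne st x h (2 * b) (by omega)]
      exact (fl_upd st x h (2 * b + 1) h2).right _ _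
    · have h2 : x / 2 ^ h = 2 * b := by omega
      rw [hd, decide_eq_false hx, mk_upd_ne st x h (2 * b + 1) (by omega)]
      exact (fl_upd st x h (2 * b) h2).left _ _

/-- The tree with the keys `0, ..., 2 ^ h - 1` in the state `st`. -/
def tree (k h : ℕ) (st : ℕ → ℕ → Bool) : BinaryTree ℕ := W 0 k (mk st h 0)

theorem inorder_tree (k h : ℕ) (hk : h ≤ 2 ^ k) (st : ℕ → ℕ → Bool) :
    inorder (tree k h st) = List.range (2 ^ h) := by
  have h1 := ino_mk st h 0
  simp only [zero_mul] at h1
  rw [tree, inorder_W 0 k _ (by rw [ht_mk]; exact hk), h1, List.range_eq_range']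

theorem depth_tree (k h : ℕ) (hk : h ≤ 2 ^ k) (st : ℕ → ℕ → Bool) (x : ℕ) (hx : x < 2 ^ h) :
    depth x (tree k h (upd st x)) = 0 := by
  have h1 := pk_upd st x h 0 (Nat.div_eq_of_lt hx)
  have h2 := depth_W 0 k (mk (upd st x) h 0) (by rw [ht_mk]; exact hk)
  rw [zero_mul] at h1
  rw [h1] at h2
  exact h2

theorem near_tree (k h : ℕ) (hk : h ≤ 2 ^ k) (st : ℕ → ℕ → Bool) (x : ℕ) (hx : x < 2 ^ h) :
    Near (6 * k * chg h st x + 6) (tree k h st) (tree k h (upd st x)) :=
  near_W_Fl 0 k (fl_upd st x h 0 (Nat.div_eq_of_lt hx)) (by rw [ht_mk]; exact hk)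

/-- Executions from the tree of the state after the first request. -/
theorem exec_tree (k h : ℕ) (hk : h ≤ 2 ^ k) : ∀ (X : List ℕ) (st : ℕ → ℕ → Bool) (x : ℕ),
    x < 2 ^ h → (∀ y ∈ X, y < 2 ^ h) →
    ∃ c, Exec (tree k h (upd st x)) (x :: X) c ∧
      c ≤ 7 * (X.length + 1) + 6 * k * tot h (upd st x) X
  | [], st, x, hx, _ => by
    refine ⟨_, Exec.cons (RotSeq.refl _) (Exec.nil _), ?_⟩
    rw [depth_tree k h hk st x hx]
    simp only [List.length_nil]
    omega
  | y :: X, st, x, hx, hX => by
    obtain ⟨c, hc, hc'⟩ := exec_tree k h hk X (upd st x) y (hX y (by simp))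
      (fun z hz => hX z (by simp [hz]))
    obtain ⟨e, he, he'⟩ := near_tree k h hk (upd st x) y (hX y (by simp))
    refine ⟨_, Exec.cons he' hc, ?_⟩
    rw [depth_tree k h hk st x hx]
    simp only [tot, List.length_cons]
    nlinarith

/-- **The interleave bound.** From every start tree with the keys `0, ..., 2 ^ h - 1`, where
`h ≤ 2 ^ k`, every sequence of requests has an execution of cost at most
`3 * 2 ^ h + 7 * |X| + 6 * k * tot h st X`, where `tot h st X` is the number of changes of
directions starting from the state `st`. -/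
theorem exec_any (k h : ℕ) (hk : h ≤ 2 ^ k) (T : BinaryTree ℕ)
    (hT : inorder T = List.range (2 ^ h)) (X : List ℕ) (hX : ∀ y ∈ X, y < 2 ^ h)
    (st : ℕ → ℕ → Bool) :
    ∃ c, Exec T X c ∧ c ≤ 3 * 2 ^ h + 7 * X.length + 6 * k * tot h st X := by
  rcases X with _ | ⟨x, _ | ⟨y, X⟩⟩
  · exact ⟨0, Exec.nil T, Nat.zero_le _⟩
  · refine ⟨_, Exec.cons (RotSeq.refl _) (Exec.nil _), ?_⟩
    have h1 := depth_le x T
    rw [hT, List.length_range] at h1
    simp only [List.length_cons, List.length_nil]
    omega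
  · obtain ⟨c, hc, hc'⟩ := exec_tree k h hk X (upd st x) y (hX y (by simp))
      (fun z hz => hX z (by simp [hz]))
    have h0 : inorder T = inorder (tree k h (upd (upd st x) y)) := by
      rw [hT, inorder_tree k h hk]
    obtain ⟨e, he, he'⟩ := near_of_inorder h0
    have h1 := depth_le x T
    rw [hT, List.length_range] at he h1
    refine ⟨_, Exec.cons he' hc, ?_⟩
    simp only [tot, List.length_cons]
    nlinarith [Nat.zero_le (6 * k * chg h st x), Nat.zero_le (6 * k * chg h (upd st x) y)]

end Pool.Agent.SplB
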