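import Pool.Agent.SplB.Bridge

set_option autoImplicit false
set_option linter.deprecated false

/-!
# Splay trees: the frozen negation `S15328` from a family with unbounded ratio
-/

namespace Pool.Agent.SplB

open BinaryTree Pool.Agent.MP_c42954_lc.Scan

/-- The statement of `S15328` (literal copy) follows if for every `C` some splaying costs more than
`C` times some execution. -/
theorem of_ratio (H : ∀ C : ℕ, ∃ (T : BinaryTree ℕ) (X : List ℕ) (c : ℕ), IsBST T ∧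
      (∀ x ∈ X, x ∈ inorder T) ∧ Exec T X c ∧ C * c < splayCost X T) :
    ¬ (∀ (In : Tree ℕ → List ℕ → Prop),
      In = (fun t l => ∀ Q : Tree ℕ → List ℕ → Prop,
        (∀ t0 : Tree ℕ, (∀ (a : ℕ) (L R : Tree ℕ), t0 ≠ Tree.node a L R) → Q t0 []) →
        (∀ (a : ℕ) (L R : Tree ℕ) (kl kr : List ℕ), Q L kl → Q R kr →
            Q (Tree.node a L R) (kl ++ a :: kr)) →
        Q t l) →
    ∀ (Dep : ℕ → Tree ℕ → ℕ → Prop),
      Dep = (fun x t d => ∀ Q : Tree ℕ → ℕ → Prop,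
        (∀ L R : Tree ℕ, Q (Tree.node x L R) 0) →
        (∀ (a : ℕ) (L R : Tree ℕ) (k : ℕ), x < a → Q L k → Q (Tree.node a L R) (k + 1)) →
        (∀ (a : ℕ) (L R : Tree ℕ) (k : ℕ), a < x → Q R k → Q (Tree.node a L R) (k + 1)) →
        Q t d) →
    ∀ (R1 : Tree ℕ → Tree ℕ → Prop),
      R1 = (fun t t' => ∀ Q : Tree ℕ → Tree ℕ → Prop,
        (∀ (a b : ℕ) (A B C : Tree ℕ),
            Q (Tree.node a (Tree.node b A B) C) (Tree.node b A (Tree.node a B C))) →
        (∀ (a b : ℕ) (A B C : Tree ℕ),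
            Q (Tree.node b A (Tree.node a B C)) (Tree.node a (Tree.node b A B) C)) →
        (∀ (a : ℕ) (L L' Rt : Tree ℕ), Q L L' → Q (Tree.node a L Rt) (Tree.node a L' Rt)) →
        (∀ (a : ℕ) (L Rt Rt' : Tree ℕ), Q Rt Rt' → Q (Tree.node a L Rt) (Tree.node a L Rt')) →
        Q t t') →
    ∀ (E : ℕ → Tree ℕ → Tree ℕ → Prop),
      E = (fun x t t' => ∀ Q : Tree ℕ → Tree ℕ → Prop,
        (∀ L Rt : Tree ℕ, Q (Tree.node x L Rt) (Tree.node x L Rt)) →
        (∀ (a b c : ℕ) (LL LR Rt A B : Tree ℕ), Q LL (Tree.node c A B) →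
            Q (Tree.node a (Tree.node b LL LR) Rt)
              (Tree.node c A (Tree.node b B (Tree.node a LR Rt)))) →
        (∀ (a b c : ℕ) (LL LR Rt A B : Tree ℕ), Q LR (Tree.node c A B) →
            Q (Tree.node a (Tree.node b LL LR) Rt)
              (Tree.node c (Tree.node b LL A) (Tree.node a B Rt))) →
        (∀ (a b c : ℕ) (Lt RL RR A B : Tree ℕ), Q RR (Tree.node c A B) →
            Q (Tree.node a Lt (Tree.node b RL RR))
              (Tree.node c (Tree.node b (Tree.node a Lt RL) A) B)) →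
        (∀ (a b c : ℕ) (Lt RL RR A B : Tree ℕ), Q RL (Tree.node c A B) →
            Q (Tree.node a Lt (Tree.node b RL RR))
              (Tree.node c (Tree.node a Lt A) (Tree.node b B RR))) →
        Q t t') →
    ∀ (S : ℕ → Tree ℕ → Tree ℕ → Prop),
      S = (fun x t t' => E x t t' ∨
        (∃ (a c : ℕ) (L Rt A B : Tree ℕ), t = Tree.node a L Rt ∧ E x L (Tree.node c A B) ∧
            t' = Tree.node c A (Tree.node a B Rt)) ∨
        (∃ (a c : ℕ) (L Rt A B : Tree ℕ), t = Tree.node a L Rt ∧ E x Rt (Tree.node c A B) ∧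
            t' = Tree.node c (Tree.node a L A) B)) →
    ∃ C : ℕ, ∀ (T : Tree ℕ) (l : List ℕ), In T l → List.Pairwise (· < ·) l →
      ∀ (m : ℕ) (X : ℕ → ℕ), (∀ i < m, X i ∈ l) →
        (∃ Sp : ℕ → Tree ℕ, Sp 0 = T ∧ ∀ i < m, S (X i) (Sp i) (Sp (i + 1))) ∧
        ∀ Sp : ℕ → Tree ℕ, Sp 0 = T → (∀ i < m, S (X i) (Sp i) (Sp (i + 1))) →
        ∀ (U : ℕ → Tree ℕ) (e : ℕ → ℕ), U 0 = T →
          (∀ i < m, ∃ f : ℕ → Tree ℕ, f 0 = U i ∧ f (e i) = U (i + 1) ∧
              ∀ j < e i, R1 (f j) (f (j + 1))) →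
          ∀ (dS dU : ℕ → ℕ), (∀ i < m, Dep (X i) (Sp i) (dS i)) →
            (∀ i < m, Dep (X i) (U i) (dU i)) →
            m + ∑ i ∈ Finset.range m, dS i
              ≤ C * ∑ i ∈ Finset.range m, (1 + e i + dU i)) :=
  fun h => bridge H (h FIn rfl FDep rfl FR1 rfl FE rfl FS rfl)

end Pool.Agent.SplB
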