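import Pool.Agent.SplB.Near

set_option autoImplicit false

/-!
# Splay trees, upper bounds for executions: the representation of tries with preferred directions

`Tr` is a binary trie; a leaf carries a search tree, an internal node a separating key and a
direction.  The directions determine the current path.  `rep k t` (for a trie of height at most
`2 ^ k`) is a search tree cut at the current leaf into a left part, the tree in the current leaf
and a right part.  One change of direction on the current path costs `6 k` rotations.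
-/

namespace Pool.Agent.SplB

open BinaryTree Pool.Agent.MP_c42954_lc.Scan

/-- A (possibly empty) spine part: root key and the outer subtree. -/
abbrev Sp : Type := Option (ℕ × BinaryTree ℕ)

/-- The tree with left part `L`, middle tree `M`, right part `R`. -/
def K : Sp → BinaryTree ℕ → Sp → BinaryTree ℕ
  | none, M, none => M
  | some (a, A), M, none => .node a A M
  | none, M, some (b, B) => .node b M B
  | some (a, A), M, some (b, B) => .node a A (.node b M B)

/-- Join of an outer and an inner left part. -/
def JL : Sp → Sp → Sp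
  | L, none => L
  | none, some (a', A') => some (a', A')
  | some (a, A), some (a', A') => some (a', .node a A A')

/-- Join of an outer and an inner right part. -/
def JR : Sp → Sp → Sp
  | R, none => R
  | none, some (b', B') => some (b', B')
  | some (b, B), some (b', B') => some (b', .node b B' B)

theorem near_K {n : ℕ} (L : Sp) {M M' : BinaryTree ℕ} (R : Sp) (h : Near n M M') :
    Near n (K L M R) (K L M' R) := by
  rcases L with _ | ⟨a, A⟩ <;> rcases R with _ | ⟨b, B⟩
  · exact h
  · exact h.left _ _
  · exact h.right _ _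
  · exact (h.left _ _).right _ _

theorem near_KJ (L₁ L₂ R₁ R₂ : Sp) (M : BinaryTree ℕ) :
    Near 3 (K L₁ (K L₂ M R₂) R₁) (K (JL L₁ L₂) M (JR R₁ R₂)) := by
  rcases L₁ with _ | ⟨a, A⟩ <;> rcases L₂ with _ | ⟨a', A'⟩ <;> rcases R₁ with _ | ⟨b, B⟩ <;>
    rcases R₂ with _ | ⟨b', B'⟩
  · exact Near.refl _ _
  · exact Near.refl _ _
  · exact Near.refl _ _
  · -- node b (node b' M B') B
    exact (Near.rot (Rot.atLeftChild b b' M B' B)).mono (by omega)
  · exact Near.refl _ _
  · exact Near.refl _ _
  · -- node b (node a' A' M) B → node a' A' (node b M B)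
    exact (Near.rot (Rot.atLeftChild b a' A' M B)).mono (by omega)
  · -- node b (node a' A' (node b' M B')) B
    have h1 := Near.rot (Rot.atLeftChild b a' A' (.node b' M B') B)
    have h2 := (Near.rot (Rot.atLeftChild b b' M B' B)).right a' A'
    exact (h1.trans h2).mono (by omega)
  · exact Near.refl _ _
  · exact Near.refl _ _
  · exact Near.refl _ _
  · exact ((Near.rot (Rot.atLeftChild b b' M B' B)).right a A).mono (by omega)
  · -- node a A (node a' A' M)
    exact (Near.rot (Rot.atRightChild a a' A A' M)).mono (by omega)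
  · exact (Near.rot (Rot.atRightChild a a' A A' (.node b' M B'))).mono (by omega)
  · -- node a A (node b (node a' A' M) B)
    have h1 := (Near.rot (Rot.atLeftChild b a' A' M B)).right a A
    have h2 := Near.rot (Rot.atRightChild a a' A A' (.node b M B))
    exact (h1.trans h2).mono (by omega)
  · have h1 := (Near.rot (Rot.atLeftChild b a' A' (.node b' M B') B)).right a A
    have h2 := Near.rot (Rot.atRightChild a a' A A' (.node b (.node b' M B') B))
    have h3 := (Near.rot (Rot.atLeftChild b b' M B' B)).right a' (.node a A A')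
    exact ((h1.trans h2).trans h3).mono (by omega)

/-- Tries with preferred directions (`true` is right). -/
inductive Tr : Type
  | lf (M : BinaryTree ℕ) : Tr
  | nd (s : ℕ) (d : Bool) (l r : Tr) : Tr

/-- The height. -/
def ht : Tr → ℕ
  | .lf _ => 0
  | .nd _ _ l r => max (ht l) (ht r) + 1

/-- The tree in the current leaf. -/
def cm : Tr → BinaryTree ℕ
  | .lf M => M
  | .nd _ d l r => if d then cm r else cm l

/-- Replace the tree in the current leaf. -/
def sm (N : BinaryTree ℕ) : Tr → Tr
  | .lf _ => .lf N
  | .nd s d l r => if d then .nd s d l (sm N r) else .nd s d (sm N l) r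

/-- The top `d` levels, the subtries at depth `d` replaced by leaves with the trees `g`. -/
def tops (g : Tr → BinaryTree ℕ) : ℕ → Tr → Tr
  | 0, t => .lf (g t)
  | _ + 1, .lf M => .lf (g (.lf M))
  | n + 1, .nd s d l r => .nd s d (tops g n l) (tops g n r)

/-- The current subtrie at depth `d`. -/
def cur : ℕ → Tr → Tr
  | 0, t => t
  | _ + 1, .lf M => .lf M
  | n + 1, .nd _ d l r => if d then cur n r else cur n l

/-- The whole tree of a cut tree. -/
def full (p : Sp × BinaryTree ℕ × Sp) : BinaryTree ℕ := K p.1 p.2.1 p.2.2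

/-- The representation of a trie of height at most `2 ^ k`. -/
def rep : ℕ → Tr → Sp × BinaryTree ℕ × Sp
  | 0, .lf M => (none, M, none)
  | 0, .nd s d l r => if d then (some (s, cm l), cm r, none) else (none, cm l, some (s, cm r))
  | k + 1, t =>
    (JL (rep k (tops (fun u => full (rep k u)) (2 ^ k) t)).1 (rep k (cur (2 ^ k) t)).1,
      (rep k (cur (2 ^ k) t)).2.1,
      JR (rep k (tops (fun u => full (rep k u)) (2 ^ k) t)).2.2 (rep k (cur (2 ^ k) t)).2.2)

/-- Change the direction at the node of depth `l` on the current path. -/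
def flip : ℕ → Tr → Tr
  | _, .lf M => .lf M
  | 0, .nd s d l r => .nd s (!d) l r
  | n + 1, .nd s d l r => if d then .nd s d l (flip n r) else .nd s d (flip n l) r

theorem ht_tops (g : Tr → BinaryTree ℕ) : ∀ (n : ℕ) (t : Tr), ht (tops g n t) ≤ n
  | 0, _ => by simp [tops, ht]
  | _ + 1, .lf _ => by simp [tops, ht]
  | n + 1, .nd s d l r => by
    have h1 := ht_tops g n l
    have h2 := ht_tops g n r
    simp only [tops, ht]
    omega

theorem ht_cur : ∀ (n m : ℕ) (t : Tr), ht t ≤ n + m → ht (cur n t) ≤ m
  | 0, m, t, h => by simpa [cur] using h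
  | _ + 1, _, .lf _, _ => by simp [cur, ht]
  | n + 1, m, .nd s d l r, h => by
    simp only [ht] at h
    cases d
    · simpa [cur] using ht_cur n m l (by omega)
    · simpa [cur] using ht_cur n m r (by omega)

theorem cm_cur : ∀ (n : ℕ) (t : Tr), cm (cur n t) = cm t
  | 0, _ => rfl
  | _ + 1, .lf _ => rfl
  | n + 1, .nd s d l r => by
    cases d
    · simpa [cur, cm] using cm_cur n l
    · simpa [cur, cm] using cm_cur n r

theorem cm_tops (g : Tr → BinaryTree ℕ) : ∀ (n : ℕ) (t : Tr), cm (tops g n t) = g (cur n t)
  | 0, _ => rfl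
  | _ + 1, .lf _ => rfl
  | n + 1, .nd s d l r => by
    cases d
    · simpa [cur, cm, tops] using cm_tops g n l
    · simpa [cur, cm, tops] using cm_tops g n r

theorem rep_cm : ∀ (k : ℕ) (t : Tr), ht t ≤ 2 ^ k → (rep k t).2.1 = cm t
  | 0, .lf _, _ => rfl
  | 0, .nd s d l r, _ => by
    cases d <;> simp [rep, cm]
  | k + 1, t, h => by
    simp only [rep]
    rw [rep_cm k _ (ht_cur _ _ t (by rw [pow_succ] at h; omega)), cm_cur]

theorem ht_sm (N : BinaryTree ℕ) : ∀ (t : Tr), ht (sm N t) = ht t
  | .lf _ => rfl
  | .nd s d l r => by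
    have h1 := ht_sm N l
    have h2 := ht_sm N r
    cases d <;> simp [sm, ht, h1, h2]

theorem cm_sm (N : BinaryTree ℕ) : ∀ (t : Tr), cm (sm N t) = N
  | .lf _ => rfl
  | .nd s d l r => by
    have h1 := cm_sm N l
    have h2 := cm_sm N r
    cases d <;> simp [sm, cm, h1, h2]

theorem cur_sm (N : BinaryTree ℕ) : ∀ (n : ℕ) (t : Tr), cur n (sm N t) = sm N (cur n t)
  | 0, _ => rfl
  | _ + 1, .lf _ => rfl
  | n + 1, .nd s d l r => by
    have h1 := cur_sm N n l
    have h2 := cur_sm N n r
    cases d <;> simp [sm, cur, h1, h2]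

theorem tops_sm (g : Tr → BinaryTree ℕ) (N : BinaryTree ℕ) :
    ∀ (n : ℕ) (t : Tr), tops g n (sm N t) = sm (g (sm N (cur n t))) (tops g n t)
  | 0, _ => rfl
  | _ + 1, .lf _ => rfl
  | n + 1, .nd s d l r => by
    have h1 := tops_sm g N n l
    have h2 := tops_sm g N n r
    cases d <;> simp [sm, cur, tops, h1, h2]

theorem rep_sm (N : BinaryTree ℕ) : ∀ (k : ℕ) (t : Tr), ht t ≤ 2 ^ k →
    rep k (sm N t) = ((rep k t).1, N, (rep k t).2.2)
  | 0, .lf _, _ => rfl
  | 0, .nd s d l r, h => by
    simp only [ht, pow_zero] at h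
    have hl : ht l = 0 := by omega
    have hr : ht r = 0 := by omega
    cases l with
    | nd _ _ _ _ => simp [ht] at hl
    | lf A =>
      cases r with
      | nd _ _ _ _ => simp [ht] at hr
      | lf B => cases d <;> simp [rep, sm, cm]
  | k + 1, t, h => by
    have h1 : ht (cur (2 ^ k) t) ≤ 2 ^ k := ht_cur _ _ t (by rw [pow_succ] at h; omega)
    have h2 := ht_tops (fun u => full (rep k u)) (2 ^ k) t
    simp only [rep]
    rw [cur_sm, tops_sm, rep_sm N k _ h1, rep_sm _ k _ h2]

theorem ht_flip : ∀ (n : ℕ) (t : Tr), ht (flip n t) = ht t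
  | 0, .lf _ => rfl
  | _ + 1, .lf _ => rfl
  | 0, .nd s d l r => by simp [flip, ht]
  | n + 1, .nd s d l r => by
    have h1 := ht_flip n l
    have h2 := ht_flip n r
    cases d <;> simp [flip, ht, h1, h2]

theorem tops_flip_lt (g : Tr → BinaryTree ℕ) : ∀ (n l : ℕ) (t : Tr), l < n →
    tops g n (flip l t) = flip l (tops g n t)
  | 0, l, _, h => by omega
  | n + 1, 0, .lf _, _ => rfl
  | n + 1, l + 1, .lf _, _ => rfl
  | n + 1, 0, .nd s d l r, _ => by simp [flip, tops]
  | n + 1, m + 1, .nd s d l r, h => by
    have h1 := tops_flip_lt g n m l (by omega)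
    have h2 := tops_flip_lt g n m r (by omega)
    cases d <;> simp [flip, tops, h1, h2]

theorem cur_flip : ∀ (n l : ℕ) (t : Tr), cur n (flip (n + l) t) = flip l (cur n t)
  | 0, l, t => by simp [cur]
  | n + 1, l, .lf M => by
    have h1 : flip (n + 1 + l) (.lf M) = .lf M := by cases (n + 1 + l) <;> rfl
    have h2 : flip l (.lf M) = .lf M := by cases l <;> rfl
    simp [cur, h1, h2]
  | n + 1, m, .nd s d l r => by
    have h1 := cur_flip n m l
    have h2 := cur_flip n m r
    have e : n + 1 + m = (n + m) + 1 := by omega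
    rw [e]
    cases d <;> simp [flip, cur, h1, h2]

theorem tops_flip_ge (g : Tr → BinaryTree ℕ) : ∀ (n l : ℕ) (t : Tr),
    tops g n (flip (n + l) t) = sm (g (flip l (cur n t))) (tops g n t)
  | 0, l, t => by simp [cur, tops, sm]
  | n + 1, l, .lf M => by
    have h1 : flip (n + 1 + l) (.lf M) = .lf M := by cases (n + 1 + l) <;> rfl
    have h2 : flip l (.lf M) = .lf M := by cases l <;> rfl
    simp [cur, h1, h2, tops, sm]
  | n + 1, m, .nd s d l r => by
    have h1 := tops_flip_ge g n m l
    have h2 := tops_flip_ge g n m r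
    have e : n + 1 + m = (n + m) + 1 := by omega
    rw [e]
    cases d <;> simp [flip, cur, tops, sm, h1, h2]

/-- The representation differs by three rotations from the representation of the top part. -/
theorem near_top (k : ℕ) (t : Tr) :
    Near 3 (full (rep k (tops (fun u => full (rep k u)) (2 ^ k) t))) (full (rep (k + 1) t)) := by
  have h1 := rep_cm k _ (ht_tops (fun u => full (rep k u)) (2 ^ k) t)
  rw [cm_tops] at h1
  have h2 := near_KJ (rep k (tops (fun u => full (rep k u)) (2 ^ k) t)).1
    (rep k (cur (2 ^ k) t)).1 (rep k (tops (fun u => full (rep k u)) (2 ^ k) t)).2.2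
    (rep k (cur (2 ^ k) t)).2.2 (rep k (cur (2 ^ k) t)).2.1
  unfold full at h1 h2 ⊢
  rw [h1]
  exact h2

/-- One change of direction on the current path costs at most `6 k` rotations. -/
theorem near_flip : ∀ (k : ℕ) (l : ℕ) (t : Tr), ht t ≤ 2 ^ k →
    Near (6 * k) (full (rep k t)) (full (rep k (flip l t)))
  | 0, 0, .lf _, _ => Near.refl _ _
  | 0, _ + 1, .lf _, _ => Near.refl _ _
  | 0, 0, .nd s d l r, h => by
    apply Near.of_eq
    cases d <;> simp [flip, rep, full, K]
  | 0, m + 1, .nd s d l r, h => by
    simp only [ht, pow_zero] at h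
    have hl : ht l = 0 := by omega
    have hr : ht r = 0 := by omega
    cases l with
    | nd _ _ _ _ => simp [ht] at hl
    | lf A =>
      cases r with
      | nd _ _ _ _ => simp [ht] at hr
      | lf B =>
        have h1 : ∀ M, flip m (.lf M) = .lf M := by intro M; cases m <;> rfl
        apply Near.of_eq
        cases d <;> simp [flip, rep, full, K, h1]
  | k + 1, l, t, h => by
    have hc : ht (cur (2 ^ k) t) ≤ 2 ^ k := ht_cur _ _ t (by rw [pow_succ] at h; omega)
    have ht1 := ht_tops (fun u => full (rep k u)) (2 ^ k) t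
    have h1 := (near_top k t).symm
    have h3 := near_top k (flip l t)
    have h2 : Near (6 * k) (full (rep k (tops (fun u => full (rep k u)) (2 ^ k) t)))
        (full (rep k (tops (fun u => full (rep k u)) (2 ^ k) (flip l t)))) := by
      by_cases hl : l < 2 ^ k
      · rw [tops_flip_lt _ _ _ _ hl]
        exact near_flip k l _ ht1
      · obtain ⟨m, rfl⟩ : ∃ m, l = 2 ^ k + m := ⟨l - 2 ^ k, by omega⟩
        rw [tops_flip_ge]
        have h4 := near_flip k m (cur (2 ^ k) t) hc
        have h5 := rep_cm k _ ht1
        rw [cm_tops] at h5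
        rw [rep_sm _ k _ ht1]
        have h6 := near_K (rep k (tops (fun u => full (rep k u)) (2 ^ k) t)).1
          (rep k (tops (fun u => full (rep k u)) (2 ^ k) t)).2.2 h4
        have h7 : full (rep k (tops (fun u => full (rep k u)) (2 ^ k) t)) =
            K (rep k (tops (fun u => full (rep k u)) (2 ^ k) t)).1
              (full (rep k (cur (2 ^ k) t)))
              (rep k (tops (fun u => full (rep k u)) (2 ^ k) t)).2.2 := by
          rw [← h5]
          rfl
        rw [h7]
        exact h6
    exact ((h1.trans h2).trans h3).mono (by omega)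

/-! ## Symmetric order and the current key -/

/-- The symmetric order of a trie. -/
def ino : Tr → List ℕ
  | .lf M => inorder M
  | .nd s _ l r => ino l ++ s :: ino r

theorem ino_tops (g : Tr → BinaryTree ℕ) (m : ℕ) (hg : ∀ u, ht u ≤ m → inorder (g u) = ino u) :
    ∀ (n : ℕ) (t : Tr), ht t ≤ n + m → ino (tops g n t) = ino t
  | 0, t, h => by simpa [tops, ino] using hg t (by omega)
  | _ + 1, .lf M, _ => by
    have := hg (.lf M) (by simp [ht])
    simpa [tops, ino] using this
  | n + 1, .nd s d l r, h => by
    simp only [ht] at h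
    have h1 := ino_tops g m hg n l (by omega)
    have h2 := ino_tops g m hg n r (by omega)
    simp [tops, ino, h1, h2]

theorem inorder_full : ∀ (k : ℕ) (t : Tr), ht t ≤ 2 ^ k → inorder (full (rep k t)) = ino t
  | 0, .lf M, _ => rfl
  | 0, .nd s d l r, h => by
    simp only [ht, pow_zero] at h
    have hl : ht l = 0 := by omega
    have hr : ht r = 0 := by omega
    cases l with
    | nd _ _ _ _ => simp [ht] at hl
    | lf A =>
      cases r with
      | nd _ _ _ _ => simp [ht] at hr
      | lf B => cases d <;> simp [rep, full, K, cm, ino, inorder]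
  | k + 1, t, h => by
    have h1 := (near_top k t).inorder
    rw [← h1, inorder_full k _ (ht_tops _ _ _)]
    exact ino_tops _ (2 ^ k) (fun u hu => inorder_full k u hu) _ _ (by rw [pow_succ] at h; omega)

/-- The last key to the left of the current path. -/
def pk : Tr → Option ℕ
  | .lf _ => none
  | .nd s d l r => if d then (pk r).or (some s) else pk l

theorem pk_tops (g : Tr → BinaryTree ℕ) : ∀ (n : ℕ) (t : Tr),
    pk t = (pk (cur n t)).or (pk (tops g n t))
  | 0, t => by simp [cur, tops, pk]
  | _ + 1, .lf _ => rfl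
  | n + 1, .nd s d l r => by
    have h1 := pk_tops g n l
    have h2 := pk_tops g n r
    cases d
    · simpa [cur, tops, pk] using h1
    · simp only [cur, tops, pk, if_true]
      rw [h2]
      cases pk (cur n r) <;> simp

theorem JL_fst (L L' : Sp) : (JL L L').map Prod.fst = (L'.map Prod.fst).or (L.map Prod.fst) := by
  rcases L with _ | ⟨a, A⟩ <;> rcases L' with _ | ⟨a', A'⟩ <;> simp [JL]

theorem rep_fst : ∀ (k : ℕ) (t : Tr), ht t ≤ 2 ^ k → (rep k t).1.map Prod.fst = pk t
  | 0, .lf M, _ => rfl
  | 0, .nd s d l r, h => by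
    simp only [ht, pow_zero] at h
    have hl : ht l = 0 := by omega
    have hr : ht r = 0 := by omega
    cases l with
    | nd _ _ _ _ => simp [ht] at hl
    | lf A =>
      cases r with
      | nd _ _ _ _ => simp [ht] at hr
      | lf B => cases d <;> simp [rep, pk]
  | k + 1, t, h => by
    have hc : ht (cur (2 ^ k) t) ≤ 2 ^ k := ht_cur _ _ t (by rw [pow_succ] at h; omega)
    simp only [rep]
    rw [JL_fst, rep_fst k _ hc, rep_fst k _ (ht_tops _ _ _)]
    exact (pk_tops _ _ _).symm

/-- The tree with the sentinel key `z` to the left: its root is the current key. -/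
def W (z k : ℕ) (t : Tr) : BinaryTree ℕ :=
  K (JL (some (z, .nil)) (rep k t).1) (rep k t).2.1 (rep k t).2.2

theorem near_W (z k : ℕ) (t : Tr) : Near 3 (.node z .nil (full (rep k t))) (W z k t) := by
  have h := near_KJ (some (z, .nil)) (rep k t).1 none (rep k t).2.2 (rep k t).2.1
  have e : JR none (rep k t).2.2 = (rep k t).2.2 := by
    rcases (rep k t).2.2 with _ | ⟨b, B⟩ <;> rfl
  rw [e] at h
  exact h

theorem inorder_W (z k : ℕ) (t : Tr) (h : ht t ≤ 2 ^ k) : inorder (W z k t) = z :: ino t := by
  rw [← (near_W z k t).inorder]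
  simp [inorder, inorder_full k t h]

theorem depth_W (z k : ℕ) (t : Tr) (h : ht t ≤ 2 ^ k) : depth ((pk t).getD z) (W z k t) = 0 := by
  have h1 := rep_fst k t h
  rw [← h1]
  unfold W
  rcases (rep k t).1 with _ | ⟨a, A⟩ <;> rcases (rep k t).2.2 with _ | ⟨b, B⟩ <;>
    simp [JL, K, depth]

/-- `c` changes of direction, each on the current path. -/
inductive Fl : ℕ → Tr → Tr → Prop
  | refl (t : Tr) : Fl 0 t t
  | step {c : ℕ} {t u : Tr} (l : ℕ) : Fl c (flip l t) u → Fl (c + 1) t u

theorem Fl.trans {c c' : ℕ} {t u v : Tr} (h : Fl c t u) (h' : Fl c' u v) : Fl (c + c') t v := by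
  induction h with
  | refl t => simpa using h'
  | @step c _ _ l h1 ih =>
    rw [show c + 1 + c' = c + c' + 1 from by omega]
    exact Fl.step l (ih h')

theorem Fl.ht {c : ℕ} {t u : Tr} (h : Fl c t u) : ht u = ht t := by
  induction h with
  | refl t => rfl
  | step l h1 ih => rw [ih, ht_flip]

theorem Fl.right {c : ℕ} {t u : Tr} (h : Fl c t u) (s : ℕ) (l : Tr) :
    Fl c (.nd s true l t) (.nd s true l u) := by
  induction h with
  | refl t => exact Fl.refl _
  | step m h1 ih =>
    refine Fl.step (m + 1) ?_
    simpa [flip] using ih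

theorem Fl.left {c : ℕ} {t u : Tr} (h : Fl c t u) (s : ℕ) (r : Tr) :
    Fl c (.nd s false t r) (.nd s false u r) := by
  induction h with
  | refl t => exact Fl.refl _
  | step m h1 ih =>
    refine Fl.step (m + 1) ?_
    simpa [flip] using ih

theorem Fl.dir (s : ℕ) (d d' : Bool) (l r : Tr) :
    Fl (if d = d' then 0 else 1) (.nd s d l r) (.nd s d' l r) := by
  by_cases h : d = d'
  · subst h
    simpa using Fl.refl _
  · rw [if_neg h]
    refine Fl.step 0 ?_
    have : (!d) = d' := by cases d <;> cases d' <;> simp at h ⊢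
    simpa [flip, this] using Fl.refl (.nd s d' l r)

theorem near_Fl (k : ℕ) {c : ℕ} {t u : Tr} (h : Fl c t u) (ht' : ht t ≤ 2 ^ k) :
    Near (6 * k * c) (full (rep k t)) (full (rep k u)) := by
  induction h with
  | refl t => exact Near.refl _ _
  | @step c t u l h1 ih =>
    have h2 := near_flip k l t ht'
    have h3 := ih (by rw [ht_flip]; exact ht')
    exact (h2.trans h3).mono (by ring_nf; omega)

theorem near_W_Fl (z k : ℕ) {c : ℕ} {t u : Tr} (h : Fl c t u) (ht' : ht t ≤ 2 ^ k) :
    Near (6 * k * c + 6) (W z k t) (W z k u) := by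
  have h1 := (near_W z k t).symm
  have h2 := (near_Fl k h ht').right z .nil
  have h3 := near_W z k u
  exact ((h1.trans h2).trans h3).mono (by omega)

end Pool.Agent.SplB
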